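import Pool.Agent.helper50.NPT.Spec1

/-!
# Project NPT (MP_8f32d0_ag), row ABS: the filtration argument (pure algebra)
-/

set_option autoImplicit false

namespace NPT

open AN

section

variable {M : Type} [AddCommGroup M] (F V : M →+ M)

/-- the filtration -/
def ABS_Fil (g r : ℕ) : AddSubgroup M := AddSubgroup.closure {w | ∃ (a b : ℕ) (x : M), r ≤ a + (g - 1) * b ∧ w = F^[a] (V^[b] x)}

variable {F V}

theorem ABS_com (hc : ∀ x, F (V x) = V (F x)) (a b : ℕ) (x : M) : F^[a] (V^[b] x) = V^[b] (F^[a] x) := by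
  have h : Function.Commute (F : M → M) (V : M → M) := hc
  exact (h.iterate_iterate a b) x

theorem ABS_gen {g r : ℕ} (a b : ℕ) (x : M) (h : r ≤ a + (g - 1) * b) : F^[a] (V^[b] x) ∈ ABS_Fil F V g r :=
  AddSubgroup.subset_closure ⟨a, b, x, h, rfl⟩

theorem ABS_anti {g r s : ℕ} (h : r ≤ s) : ABS_Fil F V g s ≤ ABS_Fil F V g r := by
  refine AddSubgroup.closure_mono ?_
  rintro w ⟨a, b, x, h1, rfl⟩
  exact ⟨a, b, x, h.trans h1, rfl⟩

theorem ABS_F {g r : ℕ} {w : M} (h : w ∈ ABS_Fil F V g r) : F w ∈ ABS_Fil F V g (r + 1) := by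
  unfold ABS_Fil at h
  induction h using AddSubgroup.closure_induction with
  | mem w hw =>
    obtain ⟨a, b, x, h1, rfl⟩ := hw
    have h2 := ABS_gen (F := F) (V := V) (g := g) (r := r + 1) (a + 1) b x (by omega)
    rwa [Function.iterate_succ_apply'] at h2
  | zero => rw [map_zero]; exact zero_mem _
  | add x y _ _ hx hy => rw [map_add]; exact add_mem hx hy
  | neg x _ hx => rw [map_neg]; exact neg_mem hx

/-- the shape of the elements of the filtration: generators -/
theorem ABS_genshape {g : ℕ} (hg : 3 ≤ g) (hc : ∀ x, F (V x) = V (F x)) (h5 : ∀ x : M, ∃ y z : M, F^[g] x = V (F y + V z)) (j i : ℕ) (hi1 : 1 ≤ i) :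
    ∀ (k a b : ℕ) (x : M), j + 1 ≤ b + k → (g - 1) * j + i ≤ a + (g - 1) * b → ∃ y z : M, F^[a] (V^[b] x) = V^[j] (F^[i] y) + V^[j + 1] z := by
  intro k
  induction k using Nat.strong_induction_on with
  | _ k ih =>
    intro a b x hk hab
    rcases lt_trichotomy b j with hbj | hbj | hbj
    · have h1 : g ≤ a := by
        have h2 : (g - 1) * (b + 1) ≤ (g - 1) * j := Nat.mul_le_mul_left _ hbj
        rw [Nat.mul_add, Nat.mul_one] at h2
        omega
      obtain ⟨y, z, hyz⟩ := h5 x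
      have h3 : F^[a] (V^[b] x) = F^[a - g + 1] (V^[b + 1] y) + F^[a - g] (V^[b + 2] z) := by
        have e1 : F^[a] (V^[b] x) = F^[a - g] (V^[b] (F^[g] x)) := by
          rw [← ABS_com hc g b x, ← Function.iterate_add_apply, Nat.sub_add_cancel h1]
        rw [e1, hyz, map_add, iterate_map_add, iterate_map_add, ← Function.iterate_succ_apply, ← Function.iterate_succ_apply, ← Function.iterate_succ_apply]
        have e2 : V^[b + 1] (F y) = F (V^[b + 1] y) := (ABS_com hc 1 (b + 1) y).symm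
        rw [e2, ← Function.iterate_succ_apply]
      have h4 : (g - 1) * (b + 1) = (g - 1) * b + (g - 1) := by ring
      have h5' : (g - 1) * (b + 2) = (g - 1) * b + (g - 1) + (g - 1) := by ring
      obtain ⟨y1, z1, e1⟩ := ih (k - 1) (by omega) (a - g + 1) (b + 1) y (by omega) (by omega)
      obtain ⟨y2, z2, e2⟩ := ih (k - 1) (by omega) (a - g) (b + 2) z (by omega) (by omega)
      refine ⟨y1 + y2, z1 + z2, ?_⟩
      rw [h3, e1, e2, iterate_map_add, iterate_map_add, iterate_map_add]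
      abel
    · subst hbj
      have h1 : i ≤ a := by omega
      refine ⟨F^[a - i] x, 0, ?_⟩
      rw [iterate_map_zero, add_zero, ← Function.iterate_add_apply, Nat.add_sub_cancel' h1, ABS_com hc]
    · refine ⟨0, F^[a] (V^[b - (j + 1)] x), ?_⟩
      rw [iterate_map_zero, iterate_map_zero, zero_add, ← ABS_com hc, ← Function.iterate_add_apply, Nat.add_sub_cancel' hbj]

theorem ABS_shape {g : ℕ} (hg : 3 ≤ g) (hc : ∀ x, F (V x) = V (F x)) (h5 : ∀ x : M, ∃ y z : M, F^[g] x = V (F y + V z)) (j i : ℕ) (hi1 : 1 ≤ i)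
    {w : M} (hw : w ∈ ABS_Fil F V g ((g - 1) * j + i)) : ∃ y z : M, w = V^[j] (F^[i] y) + V^[j + 1] z := by
  unfold ABS_Fil at hw
  induction hw using AddSubgroup.closure_induction with
  | mem w hw =>
    obtain ⟨a, b, x, h1, rfl⟩ := hw
    exact ABS_genshape hg hc h5 j i hi1 (j + 1) a b x (by omega) h1
  | zero => exact ⟨0, 0, by simp only [iterate_map_zero, add_zero]⟩
  | add x y _ _ hx hy =>
    obtain ⟨y1, z1, e1⟩ := hx
    obtain ⟨y2, z2, e2⟩ := hy
    refine ⟨y1 + y2, z1 + z2, ?_⟩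
    rw [e1, e2, iterate_map_add, iterate_map_add, iterate_map_add]
    abel
  | neg x _ hx =>
    obtain ⟨y1, z1, e1⟩ := hx
    refine ⟨-y1, -z1, ?_⟩
    rw [e1, iterate_map_neg, iterate_map_neg, iterate_map_neg]
    abel

theorem ABS_step {g : ℕ} (hg : 3 ≤ g) (hc : ∀ x, F (V x) = V (F x)) {U : Set M} (h6 : ∀ u ∈ U, ∃ u' ∈ U, ∃ z : M, F^[g] u = V (F u' + V z)) {u : M} (hu : u ∈ U) :
    ∀ n : ℕ, 1 ≤ n → ∃ j i : ℕ, 1 ≤ i ∧ i ≤ g - 1 ∧ n = (g - 1) * j + i ∧ ∃ u' ∈ U, ∃ r ∈ ABS_Fil F V g (n + 1), F^[n] u = V^[j] (F^[i] u') + r := by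
  intro n hn
  induction n, hn using Nat.le_induction with
  | base =>
    refine ⟨0, 1, le_rfl, by omega, by simp, u, hu, 0, zero_mem _, ?_⟩
    rw [add_zero]
    rfl
  | succ n hn ih =>
    obtain ⟨j, i, hi1, hi2, hnij, u', hu', r, hr, he⟩ := ih
    have h1 : F^[n + 1] u = V^[j] (F^[i + 1] u') + F r := by
      rw [Function.iterate_succ_apply', he, map_add]
      have e2 : F (V^[j] (F^[i] u')) = V^[j] (F (F^[i] u')) := ABS_com hc 1 j _
      rw [e2, ← Function.iterate_succ_apply' (F : M → M) i u']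
    rcases Nat.lt_or_ge i (g - 1) with hi | hi
    · exact ⟨j, i + 1, by omega, by omega, by omega, u', hu', F r, ABS_F hr, h1⟩
    · have hig : i + 1 = g := by omega
      obtain ⟨u'', hu'', z, hz⟩ := h6 u' hu'
      refine ⟨j + 1, 1, le_rfl, by omega, ?_, u'', hu'', V^[j + 2] z + F r, add_mem ?_ (ABS_F hr), ?_⟩
      · rw [Nat.mul_add]
        omega
      · have h2 := ABS_gen (F := F) (V := V) (g := g) (r := n + 1 + 1) 0 (j + 2) z (by
          rw [Nat.mul_add]
          omega)
        exact h2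
      · rw [h1, hig, hz, map_add, iterate_map_add, ← Function.iterate_succ_apply, ← Function.iterate_succ_apply, ← Function.iterate_succ_apply]
        rw [add_assoc]
        rfl

theorem ABS_pow {p : ℕ} (hp : ∀ x, F (V x) = p • x) (m : ℕ) (y : M) : p ^ m • y = F^[m] (V^[m] y) := by
  induction m generalizing y with
  | zero => rw [pow_zero, one_smul]; rfl
  | succ m ih =>
    rw [Function.iterate_succ_apply', Function.iterate_succ_apply, ← ih, map_nsmul, hp, ← mul_smul, ← pow_succ]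

theorem ABS_inj (hV : Function.Injective V) (j : ℕ) {x y : M} (h : V^[j] x = V^[j] y) : x = y := hV.iterate j h

end

theorem ABS : ABS_stmt := by
  intro M _ F V p g hg hFV hVF hV U hU h4 h5 h6 n m hnm
  have hc : ∀ x, F (V x) = V (F x) := fun x => by rw [hFV, hVF]
  obtain ⟨u, hu⟩ := hU
  by_contra hlt
  push Not at hlt
  rcases Nat.eq_zero_or_pos n with h0 | hn
  · subst h0
    have hm : 0 < m := by
      rcases Nat.eq_zero_or_pos m with h | h
      · rw [h, Nat.mul_zero] at hlt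
        exact absurd hlt (lt_irrefl 0)
      · exact h
    obtain ⟨y, hy⟩ := hnm u
    obtain ⟨k, rfl⟩ := Nat.exists_eq_add_of_lt hm
    refine h4 u hu 0 (by omega) (V (p ^ k • y)) 0 ?_
    rw [map_zero, add_zero, hy]
    show p ^ (0 + k + 1) • y = F (V (p ^ k • y))
    rw [hFV, ← mul_smul, ← pow_succ', Nat.zero_add]
  · obtain ⟨j, i, hi1, hi2, hnij, u', hu', r, hr, he⟩ := ABS_step hg hc h6 hu n hn
    obtain ⟨y, hy⟩ := hnm u
    have h7 : F^[n] u ∈ ABS_Fil F V g (n + 1) := by
      rw [hy, ABS_pow hFV m y]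
      refine ABS_anti hlt (ABS_gen m m y ?_)
      have h8 : g * m = m + (g - 1) * m := by
        obtain ⟨g', rfl⟩ : ∃ g', g = g' + 1 := ⟨g - 1, by omega⟩
        rw [Nat.add_sub_cancel]
        ring
      omega
    have h8 : V^[j] (F^[i] u') ∈ ABS_Fil F V g (n + 1) := by
      have h9 : V^[j] (F^[i] u') = F^[n] u - r := by rw [he, add_sub_cancel_right]
      rw [h9]
      exact sub_mem h7 hr
    rcases Nat.lt_or_ge i (g - 1) with hi | hi
    · rw [show n + 1 = (g - 1) * j + (i + 1) by omega] at h8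
      obtain ⟨y', z, hyz⟩ := ABS_shape hg hc h5 j (i + 1) (by omega) h8
      rw [Function.iterate_succ_apply (V : M → M) j z, ← iterate_map_add] at hyz
      exact h4 u' hu' i (by omega) y' z (ABS_inj hV j hyz)
    · have hig : i = g - 1 := by omega
      rw [show n + 1 = (g - 1) * (j + 1) + 1 by rw [Nat.mul_add]; omega] at h8
      obtain ⟨y', z, hyz⟩ := ABS_shape hg hc h5 (j + 1) 1 le_rfl h8
      rw [Function.iterate_succ_apply, Function.iterate_succ_apply (V : M → M) (j + 1) z, Function.iterate_succ_apply (V : M → M) j (V z), ← iterate_map_add] at hyz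
      have h9 := ABS_inj hV j hyz
      refine h4 u' hu' i (by omega) 0 (F^[1] y' + V z) ?_
      rw [h9, iterate_map_zero, zero_add, map_add]

end NPT
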